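import Mathlib
import Pool.Agent.Lib.MP_ee6896_co.G_Main

set_option autoImplicit false

namespace Pool.Agent.Results.MP_ee6896_co.AverageDegree

theorem result (n : ℕ) (G : SimpleGraph (Fin n)) (s b k : ℕ)
    (hs : 4 * n ^ 2 < 2 ^ s * G.edgeSet.ncard)
    (hb : 202 * s ^ 2 * b * n < G.edgeSet.ncard) (hk : k < 2 ^ b) :
    ∃ P : List (Sym2 ℕ × Bool) → Sym2 ℕ → Bool,
      ∀ B : List (Sym2 ℕ × Bool) → Sym2 ℕ, ∀ h : ℕ → List (Sym2 ℕ × Bool),
        h 0 = [] →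
        (∀ t, h (t + 1) = h t ++ [(B (h t), P (h t) (B (h t)))]) →
        ∀ t : ℕ,
          ((h t).map Prod.fst).Nodup →
          (∀ x ∈ h t, ¬ x.1.IsDiag) →
          (∀ v : ℕ, ((h t).filter (fun x => v ∈ x.1)).length ≤ k) →
          ¬ ∃ φ : Fin n → ℕ, Function.Injective φ ∧
            ∃ c : Bool, ∀ u w, G.Adj u w → (s(φ u, φ w), c) ∈ h t := by
  obtain ⟨P, hP⟩ := Pool.Agent.Lib.MP_ee6896_co.Gen.painter_wins G s b k
    (by rwa [Fintype.card_fin]) (by rwa [Fintype.card_fin]) hk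
  exact ⟨P, fun B h h0 hst t h1 _ h3 => hP B h h0 hst t h1 h3⟩

end Pool.Agent.Results.MP_ee6896_co.AverageDegree
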