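import Mathlib
import Pool.Agent.Lib.MP_ee6896_co.Main

set_option autoImplicit false

namespace Pool.Agent.Results.MP_ee6896_co.CliqueExponential

theorem result (M k : ℕ) (hk : 3 * ((k : ℝ) + 1) ^ 2 < (6 / 5 : ℝ) ^ M) :
    ∃ P : List (Sym2 ℕ × Bool) → Sym2 ℕ → Bool,
      ∀ B : List (Sym2 ℕ × Bool) → Sym2 ℕ, ∀ h : ℕ → List (Sym2 ℕ × Bool),
        h 0 = [] →
        (∀ n, h (n + 1) = h n ++ [(B (h n), P (h n) (B (h n)))]) →
        ∀ n : ℕ,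
          ((h n).map Prod.fst).Nodup →
          (∀ x ∈ h n, ¬ x.1.IsDiag) →
          (∀ v : ℕ, ((h n).filter (fun x => v ∈ x.1)).length ≤ k) →
          ¬ ∃ φ : Fin (3 * M + 2) → ℕ, Function.Injective φ ∧
            ∃ c : Bool, ∀ u w, u ≠ w → (s(φ u, φ w), c) ∈ h n := by
  refine ⟨Pool.Agent.Lib.MP_ee6896_co.painter (1 / ((k + 1 : ℕ) : ℝ)), ?_⟩
  rintro B h h0 hs n h1 h2 h3 ⟨φ, hφ, c, h4⟩
  exact absurd (Pool.Agent.Lib.MP_ee6896_co.painter_wins M k B h h0 hs n h1 h2 h3 φ hφ c h4)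
    (not_le.mpr hk)

end Pool.Agent.Results.MP_ee6896_co.CliqueExponential
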